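import Pool.Agent.Q19.HO.Stm

/-!
# The actions on Hermitian and skew-Hermitian octonion matrices
-/

set_option autoImplicit false

namespace Pool.Agent.Q130.HO.HOM

open Pool.Agent.Q19.HO Matrix

variable {K : Type} [Field K] {n : ℕ}

lemma one_smul_mul (a : K) (x : Oct K) : (a • (1 : Oct K)) * x = a • x := by
  rw [Pool.Agent.Q19.HO.smul_mul', one_mul]

lemma mul_smul_one (a : K) (x : Oct K) : x * (a • (1 : Oct K)) = a • x := by
  rw [Pool.Agent.Q19.HO.mul_smul', mul_one]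

lemma re_mul (a : Matrix (Fin n) (Fin n) K) (X : Mat n K) (i j : Fin n) :
    (re a * X) i j = ∑ k, a i k • X k j := by
  rw [Matrix.mul_apply]
  exact Finset.sum_congr rfl fun k _ => one_smul_mul _ _

lemma mul_re (b : Matrix (Fin n) (Fin n) K) (X : Mat n K) (i j : Fin n) :
    (X * re b) i j = ∑ k, b k j • X i k := by
  rw [Matrix.mul_apply]
  exact Finset.sum_congr rfl fun k _ => mul_smul_one _ _

lemma re_re_mul (a b : Matrix (Fin n) (Fin n) K) (X : Mat n K) :
    re a * (re b * X) = re (a * b) * X := by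
  ext1 i j
  simp only [re_mul, Finset.smul_sum, smul_smul]
  rw [Finset.sum_comm]
  refine Finset.sum_congr rfl fun k _ => ?_
  rw [Matrix.mul_apply, Finset.sum_smul]

lemma mul_re_re (a b : Matrix (Fin n) (Fin n) K) (X : Mat n K) :
    (X * re a) * re b = X * re (a * b) := by
  ext1 i j
  simp only [mul_re, Finset.smul_sum, smul_smul]
  rw [Finset.sum_comm]
  refine Finset.sum_congr rfl fun k _ => ?_
  rw [Matrix.mul_apply, Finset.sum_smul]
  exact Finset.sum_congr rfl fun l _ => by rw [mul_comm]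

lemma re_mul_re (a b : Matrix (Fin n) (Fin n) K) (X : Mat n K) :
    (re a * X) * re b = re a * (X * re b) := by
  ext1 i j
  simp only [mul_re, re_mul, Finset.smul_sum, smul_smul]
  rw [Finset.sum_comm]
  exact Finset.sum_congr rfl fun k _ => Finset.sum_congr rfl fun l _ => by rw [mul_comm]

lemma re_mul_mul (a : Matrix (Fin n) (Fin n) K) (X Y : Mat n K) :
    (re a * X) * Y = re a * (X * Y) := by
  ext1 i j
  rw [Matrix.mul_apply, re_mul]
  simp_rw [re_mul, Matrix.mul_apply, Finset.sum_mul, Finset.smul_sum, Pool.Agent.Q19.HO.smul_mul']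
  rw [Finset.sum_comm]

lemma mul_mul_re (b : Matrix (Fin n) (Fin n) K) (X Y : Mat n K) :
    X * (Y * re b) = (X * Y) * re b := by
  ext1 i j
  rw [Matrix.mul_apply, mul_re]
  simp_rw [mul_re, Matrix.mul_apply, Finset.mul_sum, Finset.smul_sum, Pool.Agent.Q19.HO.mul_smul']
  rw [Finset.sum_comm]

lemma mul_re_mul (b : Matrix (Fin n) (Fin n) K) (X Y : Mat n K) :
    (X * re b) * Y = X * (re b * Y) := by
  ext1 i j
  rw [Matrix.mul_apply, Matrix.mul_apply]
  simp only [mul_re, re_mul, Finset.mul_sum, Finset.sum_mul, Pool.Agent.Q19.HO.mul_smul', Pool.Agent.Q19.HO.smul_mul']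
  rw [Finset.sum_comm]

lemma re_one_mul (X : Mat n K) : re 1 * X = X := by
  ext1 i j
  rw [re_mul]
  simp [Matrix.one_apply, ite_smul]

lemma mul_re_one (X : Mat n K) : X * re 1 = X := by
  ext1 i j
  rw [mul_re]
  simp [Matrix.one_apply, ite_smul]

lemma map_mul' {t : Oct K ≃ₗ[K] Oct K} (ht : t ∈ AutO K) (X Y : Mat n K) :
    (X * Y).map t = X.map t * Y.map t := by
  ext1 i j
  rw [Matrix.map_apply, Matrix.mul_apply, Matrix.mul_apply, map_sum]
  exact Finset.sum_congr rfl fun k _ => ht _ _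

lemma re_mul_map (t : Oct K ≃ₗ[K] Oct K) (a : Matrix (Fin n) (Fin n) K) (X : Mat n K) :
    (re a * X).map t = re a * X.map t := by
  ext1 i j
  simp only [Matrix.map_apply, re_mul, map_sum, map_smul]

lemma mul_re_map (t : Oct K ≃ₗ[K] Oct K) (a : Matrix (Fin n) (Fin n) K) (X : Mat n K) :
    (X * re a).map t = X.map t * re a := by
  ext1 i j
  simp only [Matrix.map_apply, mul_re, map_sum, map_smul]

lemma act_mul {t : Oct K ≃ₗ[K] Oct K} (ht : t ∈ AutO K) (g : (Matrix (Fin n) (Fin n) K)ˣ)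
    (X Y : Mat n K) : act t g (X * Y) = act t g X * act t g Y := by
  unfold act
  rw [map_mul' ht]
  conv_rhs => rw [mul_mul_re, mul_re_mul, re_re_mul, Units.inv_mul, re_one_mul, re_mul_mul]

lemma act_add (t : Oct K ≃ₗ[K] Oct K) (g : (Matrix (Fin n) (Fin n) K)ˣ) (X Y : Mat n K) :
    act t g (X + Y) = act t g X + act t g Y := by
  unfold act
  have : (X + Y).map t = X.map t + Y.map t := by
    ext1 i j
    simp
  rw [this, Matrix.mul_add, Matrix.add_mul]

lemma act_smul (t : Oct K ≃ₗ[K] Oct K) (g : (Matrix (Fin n) (Fin n) K)ˣ) (r : K) (X : Mat n K) :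
    act t g (r • X) = r • act t g X := by
  unfold act
  have : (r • X).map t = r • X.map t := by
    ext1 i j
    simp
  rw [this, Matrix.mul_smul, Matrix.smul_mul]

lemma act_neg (t : Oct K ≃ₗ[K] Oct K) (g : (Matrix (Fin n) (Fin n) K)ˣ) (X : Mat n K) :
    act t g (-X) = -act t g X := by
  have := act_smul t g (-1) X
  simpa using this

lemma act_sub (t : Oct K ≃ₗ[K] Oct K) (g : (Matrix (Fin n) (Fin n) K)ˣ) (X Y : Mat n K) :
    act t g (X - Y) = act t g X - act t g Y := by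
  rw [sub_eq_add_neg, act_add, act_neg, ← sub_eq_add_neg]

lemma act_act (t s : Oct K ≃ₗ[K] Oct K) (g h : (Matrix (Fin n) (Fin n) K)ˣ) (X : Mat n K) :
    act t g (act s h X) = act (t * s) (g * h) X := by
  unfold act
  rw [mul_re_map, re_mul_map, ← re_mul_re (a := (g : Matrix (Fin n) (Fin n) K)), mul_re_re,
    re_re_mul, _root_.mul_inv_rev, Units.val_mul, Units.val_mul]
  rfl

lemma act_one (X : Mat n K) : act (1 : Oct K ≃ₗ[K] Oct K) 1 X = X := by
  unfold act
  have h2 : X.map (1 : Oct K ≃ₗ[K] Oct K) = X := by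
    ext1 i j
    rfl
  rw [h2, inv_one, Units.val_one, re_one_mul, mul_re_one]

lemma act_apply (t : Oct K ≃ₗ[K] Oct K) (g : (Matrix (Fin n) (Fin n) K)ˣ) (X : Mat n K)
    (i j : Fin n) : act t g X i j =
      ∑ l, ∑ k, ((g : Matrix (Fin n) (Fin n) K) i k * (↑g⁻¹ : Matrix (Fin n) (Fin n) K) l j) •
        t (X k l) := by
  unfold act
  simp only [mul_re, re_mul, Finset.smul_sum, smul_smul, Matrix.map_apply]
  exact Finset.sum_congr rfl fun k _ => Finset.sum_congr rfl fun l _ => by rw [mul_comm]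

lemma sim {g : (Matrix (Fin n) (Fin n) K)ˣ} (hg : g ∈ GO n K) (i j k l : Fin n) :
    (g : Matrix (Fin n) (Fin n) K) j k * (↑g⁻¹ : Matrix (Fin n) (Fin n) K) l i =
      (g : Matrix (Fin n) (Fin n) K) i l * (↑g⁻¹ : Matrix (Fin n) (Fin n) K) k j := by
  obtain ⟨r, hr⟩ := hg
  have h1 : (g : Matrix (Fin n) (Fin n) K)ᵀ = r • (↑g⁻¹ : Matrix (Fin n) (Fin n) K) := by
    have := congrArg (fun M => M * (↑g⁻¹ : Matrix (Fin n) (Fin n) K)) hr
    simpa [Matrix.mul_assoc] using this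
  have h2 : ∀ a b, (g : Matrix (Fin n) (Fin n) K) a b =
      r * (↑g⁻¹ : Matrix (Fin n) (Fin n) K) b a := by
    intro a b
    have := congrFun (congrFun h1 b) a
    simpa using this
  rw [h2 j k, h2 i l]
  ring

lemma star_act {t : Oct K ≃ₗ[K] Oct K} (hs : ∀ x, t (star x) = star (t x))
    {g : (Matrix (Fin n) (Fin n) K)ˣ} (hg : g ∈ GO n K) (X : Mat n K) (i j : Fin n) :
    star (act t g X j i) = act t g (fun a b => star (X b a)) i j := by
  rw [act_apply, act_apply, star_sum]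
  simp only [star_sum, star_smul', hs]
  rw [Finset.sum_comm]
  refine Finset.sum_congr rfl fun k _ => Finset.sum_congr rfl fun l _ => ?_
  rw [sim hg]

/-- the linear equivalence of a stable subspace -/
def eqv (S : Submodule K (Mat n K))
    (hS : ∀ t ∈ AutO K, ∀ g ∈ GO n K, ∀ X ∈ S, act t g X ∈ S) (t : AutO K) (g : GO n K) :
    S ≃ₗ[K] S where
  toFun X := ⟨act t g X, hS _ t.2 _ g.2 _ X.2⟩
  map_add' X Y := Subtype.ext (act_add _ _ _ _)
  map_smul' r X := Subtype.ext (act_smul _ _ _ _)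
  invFun X := ⟨act (↑(t⁻¹) : Oct K ≃ₗ[K] Oct K) (↑(g⁻¹) : (Matrix (Fin n) (Fin n) K)ˣ) X,
    hS _ (t⁻¹).2 _ (g⁻¹).2 _ X.2⟩
  left_inv X := Subtype.ext (by
    show act (↑(t⁻¹) : Oct K ≃ₗ[K] Oct K) (↑(g⁻¹) : (Matrix (Fin n) (Fin n) K)ˣ) (act t g X) = X
    rw [act_act]
    rw [Subgroup.coe_inv, Subgroup.coe_inv, inv_mul_cancel, inv_mul_cancel, act_one])
  right_inv X := Subtype.ext (by
    show act t g (act (↑(t⁻¹) : Oct K ≃ₗ[K] Oct K) (↑(g⁻¹) : (Matrix (Fin n) (Fin n) K)ˣ) X) = X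
    rw [act_act]
    rw [Subgroup.coe_inv, Subgroup.coe_inv, mul_inv_cancel, mul_inv_cancel, act_one])

lemma eqv_coe (S : Submodule K (Mat n K))
    (hS : ∀ t ∈ AutO K, ∀ g ∈ GO n K, ∀ X ∈ S, act t g X ∈ S) (t : AutO K) (g : GO n K) (X : S) :
    (eqv S hS t g X : Mat n K) = act (t : Oct K ≃ₗ[K] Oct K) (g : (Matrix (Fin n) (Fin n) K)ˣ) X :=
  rfl

lemma eqv_mul (S : Submodule K (Mat n K))
    (hS : ∀ t ∈ AutO K, ∀ g ∈ GO n K, ∀ X ∈ S, act t g X ∈ S) (t s : AutO K) (g h : GO n K) :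
    eqv S hS (t * s) (g * h) = eqv S hS t g * eqv S hS s h := by
  apply LinearEquiv.ext
  intro X
  apply Subtype.ext
  show _ = act (t : Oct K ≃ₗ[K] Oct K) (g : (Matrix (Fin n) (Fin n) K)ˣ)
    (act (s : Oct K ≃ₗ[K] Oct K) (h : (Matrix (Fin n) (Fin n) K)ˣ) X)
  rw [act_act, eqv_coe]
  rfl

theorem t (h : S_TST) : Pool.Agent.Q19.HO.S_HOM := by
  intro K _ n h2
  have hP : ∀ t ∈ AutO K, ∀ g ∈ GO n K, ∀ X ∈ SymP n K, act t g X ∈ SymP n K := by
    intro t ht g hg X hX i j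
    rw [star_act ((h K h2).1 t ht).2 hg]
    have : (fun a b => star (X b a)) = X := by
      funext a b
      exact hX a b
    rw [this]
  have hM : ∀ t ∈ AutO K, ∀ g ∈ GO n K, ∀ X ∈ SymM n K, act t g X ∈ SymM n K := by
    intro t ht g hg X hX i j
    rw [star_act ((h K h2).1 t ht).2 hg]
    have : (fun a b => star (X b a)) = -X := by
      funext a b
      exact hX a b
    rw [this, act_neg]
    rfl
  constructor
  · refine ⟨MonoidHom.mk' (fun p => ⟨eqv (SymP n K) hP p.1 p.2, ?_⟩) ?_, ?_⟩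
    · intro X Y Z hZ
      rw [eqv_coe, eqv_coe, eqv_coe, ← hZ]
      unfold jp
      rw [act_smul, act_add, act_mul p.1.2, act_mul p.1.2]
    · intro p q
      apply Subtype.ext
      exact eqv_mul _ hP _ _ _ _
    · intro t g X
      rfl
  · refine ⟨MonoidHom.mk' (fun p => ⟨eqv (SymM n K) hM p.1 p.2, ?_⟩) ?_, ?_⟩
    · intro X Y Z hZ
      rw [eqv_coe, eqv_coe, eqv_coe, ← hZ]
      unfold br
      rw [act_sub, act_mul p.1.2, act_mul p.1.2]
    · intro p q
      apply Subtype.ext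
      exact eqv_mul _ hM _ _ _ _
    · intro t g X
      rfl

end Pool.Agent.Q130.HO.HOM
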